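import Pool.Agent.H31.EH.Targets
import Pool.Agent.H31.EST.RIP
import Pool.Agent.H84.LVP.JP

/-!
# Row COL of the board eh: the two halves of a star (helper92)
-/

set_option autoImplicit false

open Finset MeasureTheory

namespace Pool.Agent.H92.EH

open Pool.Agent.H24.CL Pool.Agent.H24.LV Pool.Agent.H26.ES Pool.Agent.H31.EH
open Pool.Agent.H84.LVP Pool.Agent.H31.EST

lemma ds_union {S₁ S₂ : Finset ℕ} (h : Disjoint S₁ S₂) : DS (S₁ ∪ S₂) = DS S₁ * DS S₂ := by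
  unfold DS
  exact Finset.prod_union h

/-- one half -/
lemma half {k : ℕ} (hCO : L_CO) (A B : Finset ℕ) (V : Set (X k)) (Gd : ℕ → ℕ → Set (X k))
    (x : ℕ) (b : X k) :
    StarP A V Gd (phi (DS B) (x % DS B) b) (x / DS B) ↔
      phi (DS A * DS B) x b ∈ V ∧ ∀ p ∈ A,
        phi (DS A * DS B / p) (x % (DS A * DS B / p)) b ∈ Gd p (x / (DS A * DS B / p)) := by
  unfold StarP
  have h1 : phi (DS A) (x / DS B) (phi (DS B) (x % DS B) b) = phi (DS A * DS B) x b := by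
    rw [hCO.1, Nat.mod_add_div]
  rw [h1]
  refine and_congr Iff.rfl (forall₂_congr fun p hp => ?_)
  have h2 : DS A * DS B / p = DS B * (DS A / p) := by
    rw [mul_comm, Nat.mul_div_assoc _ (dvd_DS hp)]
  rw [h2, hCO.1, Nat.mul_comm (DS A / p) (DS B), ← Nat.mod_mul, Nat.div_div_eq_div_mul]

theorem pf_COL (hCO : L_CO) (_hCT : L_CT) (hSTU : T_STU) : T_COL := by
  intro k S₁ S₂ V Ge Gd P m τ Ω hdis hd
  have hpr : ∀ p ∈ S₁ ∪ S₂, p.Prime := fun p hp => (hd.pr p hp).1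
  have hun := ds_union hdis
  have hD1 : 1 ≤ DS S₁ := DS_pos fun p hp => hpr p (Finset.mem_union_left _ hp)
  have hD2 : 1 ≤ DS S₂ := DS_pos fun p hp => hpr p (Finset.mem_union_right _ hp)
  have hcop : (DS S₁).Coprime (DS S₂) := by
    unfold DS
    refine Nat.Coprime.prod_left fun p hp => Nat.Coprime.prod_right fun q hq => ?_
    refine (Nat.coprime_primes (hpr p (Finset.mem_union_left _ hp))
      (hpr q (Finset.mem_union_right _ hq))).2 ?_
    rintro rfl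
    exact (Finset.disjoint_left.1 hdis) hp hq
  have hs1 : SDatP k S₁ V Ge Gd P m τ Ω := SDatP_mono hd Finset.subset_union_left
  have hHs : ∀ h ∈ H k (DS S₁) 1, h ∈ H k (DS (S₁ ∪ S₂)) 1 := by
    intro h hh
    rw [mem_H, pow_one] at hh ⊢
    rw [hun, Nat.mul_comm, mul_smul, hh, smul_zero]
  refine ⟨fun x b => ?_, fun y hy z hz b κ hκ κ' hκ' h1 h2 => ?_, fun x b h hh hst => ?_,
    fun kap x b h hh hT => ?_⟩
  · have e1 := half hCO S₁ S₂ V Gd x b
    have e2 := half hCO S₂ S₁ V Gd x b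
    rw [Nat.mul_comm (DS S₂) (DS S₁)] at e2
    rw [e1, e2]
    unfold StarP
    rw [hun]
    constructor
    · rintro ⟨h1, h2⟩
      exact ⟨⟨h1, fun p hp => h2 p (Finset.mem_union_left _ hp)⟩,
        ⟨h1, fun p hp => h2 p (Finset.mem_union_right _ hp)⟩⟩
    · rintro ⟨⟨h1, h2⟩, ⟨-, h3⟩⟩
      refine ⟨h1, fun p hp => ?_⟩
      rcases Finset.mem_union.1 hp with hp | hp
      · exact h2 p hp
      · exact h3 p hp
  · have hx : y + DS S₁ * z < DS (S₁ ∪ S₂) := by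
      rw [hun]
      calc y + DS S₁ * z < DS S₁ + DS S₁ * z := Nat.add_lt_add_right hy _
        _ = DS S₁ * (z + 1) := by ring
        _ ≤ DS S₁ * DS S₂ := Nat.mul_le_mul_left _ hz
    have hk1 := ((hCO.2.2.2.1 k (DS S₁) y hD1).2 κ).1 hκ
    have hk2 := ((hCO.2.2.2.1 k (DS S₁) y hD1).2 κ').1 hκ'
    have e1 : ∀ a : X k, phi (DS (S₁ ∪ S₂)) (y + DS S₁ * z) a =
        phi (DS S₂) z (phi (DS S₁) y a) := by
      intro a
      rw [hCO.1, hun, Nat.mul_comm]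
    have h3 : phi (DS (S₁ ∪ S₂)) (y + DS S₁ * z) (b + κ) =
        phi (DS (S₁ ∪ S₂)) (y + DS S₁ * z) (b + κ') := by
      rw [e1, e1, map_add (phi (DS S₁) y), map_add (phi (DS S₁) y), hk1, hk2]
    have h4 := (hSTU k (S₁ ∪ S₂) V Ge Gd P m τ Ω hd).1 _ hx _ _ h1 h2 h3
    have h5 : (b + κ) - (b + κ') = κ - κ' := by abel
    rw [h5, mem_H, pow_one, hun] at h4
    rw [mem_H, pow_one]
    refine hCO.2.2.1 k (DS S₁) y (DS S₂) (DS S₁ • (κ - κ')) hcop ?_ ?_
    · rw [← mul_smul, Nat.mul_comm]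
      exact h4
    · rw [map_nsmul, map_sub, hk1, hk2, sub_zero, smul_zero]
  · exact (hSTU k (S₁ ∪ S₂) V Ge Gd P m τ Ω hd).2.1 x b h (hHs h hh) hst
  · refine ⟨?_, ?_⟩
    · rw [map_add (phi (DS S₂) (x % DS S₂))]
      refine (hSTU k S₁ V Ge Gd P m τ Ω hs1).2.2.2 kap _ _ _ ?_ hT.1
      rw [mem_H, pow_one] at hh ⊢
      rw [← map_nsmul, hh, map_zero]
    · rw [map_add (phi (DS S₁) (x % DS S₁)), hCO.2.1 k (DS S₁) (x % DS S₁) h hh, add_zero]
      exact hT.2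

end Pool.Agent.H92.EH
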