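import Pool.Agent.H90.EH.Targets

/-! Module CAR of the board hst_modules. -/

set_option autoImplicit false

namespace Pool.Agent.H92.EH.CAR

open Finset Pool.Agent.H90.EH
open scoped Classical

theorem pf_CAR : T_CAR := by
  intro V _ _ A z hz
  have hne : (A.powerset.filter fun B => z ∈ Cone B).Nonempty :=
    ⟨A, mem_filter.2 ⟨mem_powerset.2 (Subset.refl A), hz⟩⟩
  obtain ⟨B, hB, hmin⟩ := exists_min_image _ (fun B : Finset V => B.card) hne
  obtain ⟨hBA, hzB⟩ := mem_filter.1 hB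
  refine ⟨B, mem_powerset.1 hBA, ?_, hzB⟩
  by_contra hI
  have key : ∃ c : V → ℚ, ∑ b ∈ B, c b • b = 0 ∧ ∃ b ∈ B, 0 < c b := by
    unfold Ind at hI
    push Not at hI
    obtain ⟨c, hc, b, hb, hcb⟩ := hI
    rcases lt_or_gt_of_ne hcb with h | h
    · refine ⟨fun b => - c b, ?_, b, hb, by linarith⟩
      simp only [neg_smul, sum_neg_distrib, hc, neg_zero]
    · exact ⟨c, hc, b, hb, h⟩
  obtain ⟨c, hc, b₁, hb₁, hcb₁⟩ := key
  obtain ⟨l, hl, hlz⟩ := hzB
  have hne2 : (B.filter fun b => 0 < c b).Nonempty := ⟨b₁, mem_filter.2 ⟨hb₁, hcb₁⟩⟩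
  obtain ⟨b₀, hb₀, hmin₀⟩ := exists_min_image _ (fun b => l b / c b) hne2
  obtain ⟨hb₀B, hcb₀⟩ := mem_filter.1 hb₀
  have hlt : (B.erase b₀).card < B.card := card_erase_lt_of_mem hb₀B
  have hmem : z ∈ Cone (B.erase b₀) := by
    refine ⟨fun b => l b - l b₀ / c b₀ * c b, ?_, ?_⟩
    · intro b hb
      have hbB := mem_of_mem_erase hb
      have h0 : 0 ≤ l b₀ / c b₀ := div_nonneg (hl b₀ hb₀B) hcb₀.le
      by_cases hcb : 0 < c b
      · have h1 := hmin₀ b (mem_filter.2 ⟨hbB, hcb⟩)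
        have h2 : l b₀ / c b₀ * c b ≤ l b / c b * c b := mul_le_mul_of_nonneg_right h1 hcb.le
        rw [div_mul_cancel₀ _ hcb.ne'] at h2
        linarith
      · have h1 : l b₀ / c b₀ * c b ≤ 0 := mul_nonpos_of_nonneg_of_nonpos h0 (not_lt.1 hcb)
        have := hl b hbB
        linarith
    · have e1 : ∑ b ∈ B, (l b - l b₀ / c b₀ * c b) • b = z := by
        simp only [sub_smul, mul_smul, sum_sub_distrib]
        rw [← smul_sum, hc, smul_zero, sub_zero, hlz]
      rw [← e1, ← add_sum_erase B _ hb₀B, div_mul_cancel₀ _ hcb₀.ne', sub_self, zero_smul,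
        zero_add]
  have := hmin _ (mem_filter.2 ⟨mem_powerset.2 ((erase_subset b₀ B).trans (mem_powerset.1 hBA)),
    hmem⟩)
  omega

end Pool.Agent.H92.EH.CAR
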