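import Pool.Agent.H90.EH.Targets

/-! Module EXT of the board hst_modules. -/

set_option autoImplicit false

namespace Pool.Agent.H92.EH.EXT

open Finset Pool.Agent.H90.EH
open scoped Classical

theorem pf_EXT : T_EXT := by
  intro V _ _ A B hBA hB
  have hne : (A.powerset.filter fun C => B ⊆ C ∧ Ind C).Nonempty :=
    ⟨B, mem_filter.2 ⟨mem_powerset.2 hBA, Subset.refl B, hB⟩⟩
  obtain ⟨C, hC, hmax⟩ := exists_max_image _ (fun C : Finset V => C.card) hne
  obtain ⟨hCA, hBC, hI⟩ := mem_filter.1 hC
  refine ⟨C, hBC, mem_powerset.1 hCA, hI, ?_⟩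
  intro a ha
  by_contra hna
  have haC : a ∉ C := fun h => hna (sub_Sp h)
  have hI2 : Ind (insert a C) := by
    intro c hc
    rw [sum_insert haC] at hc
    have hca : c a = 0 := by
      by_contra h0
      apply hna
      rw [mem_Sp]
      refine ⟨fun b => -(c a)⁻¹ * c b, ?_⟩
      simp only [mul_smul]
      rw [← smul_sum, eq_neg_of_add_eq_zero_right hc, smul_neg, neg_smul, neg_neg, smul_smul,
        inv_mul_cancel₀ h0, one_smul]
    rw [hca, zero_smul, zero_add] at hc
    intro b hb
    rcases mem_insert.1 hb with rfl | hb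
    · exact hca
    · exact hI c hc b hb
  have h1 := hmax (insert a C) (mem_filter.2 ⟨mem_powerset.2 (insert_subset_iff.2
    ⟨ha, mem_powerset.1 hCA⟩), hBC.trans (subset_insert a C), hI2⟩)
  rw [card_insert_of_notMem haC] at h1
  omega

end Pool.Agent.H92.EH.EXT
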